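import Pool.Agent.helper53.ORT.Spec

/-!
# Project ort (MP_561ff4_al), row ZN
-/

set_option autoImplicit false

namespace Pool.Agent.ORT

open Module Pool.Agent.GS

theorem ZN (qz : QZ_stmt) : ZN_stmt := by
  intro F V _ _ _ _ _ B hc hB hn y ν hy κ₀
  by_cases hex : ∃ a, B a a ≠ 0 ∧ B a (y a) = κ₀ * B a a
  · exact Or.inl hex
  right
  have h2 : (2 : F) ≠ 0 := by
    intro h
    have h3 : ringChar F ∣ 2 := (ringChar.spec F 2).1 (by exact_mod_cast h)
    rcases (Nat.dvd_prime Nat.prime_two).1 h3 with h4 | h4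
    · have h5 : ((1 : ℕ) : F) = 0 := (ringChar.spec F 1).2 (by rw [h4])
      rw [Nat.cast_one] at h5
      exact one_ne_zero h5
    · exact hc h4
  let yl : V →ₗ[F] V :=
    { toFun := fun v => y v
      map_add' := fun u v => hy.add u v
      map_smul' := fun c v => hy.smul c v }
  have hyl : ∀ v, yl v = y v := fun v => rfl
  let S : LinearMap.BilinForm F V :=
    (2 : F)⁻¹ • (B.compl₂ yl + (B.compl₂ yl).flip) - κ₀ • B
  have hS : ∀ u v, S u v = (2 : F)⁻¹ * (B u (y v) + B v (y u)) - κ₀ * B u v := by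
    intro u v
    simp only [S, LinearMap.sub_apply, LinearMap.smul_apply, LinearMap.add_apply,
      LinearMap.compl₂_apply, LinearMap.flip_apply, smul_eq_mul, hyl]
  have hsym : ∀ u v, S u v = S v u := by
    intro u v
    rw [hS, hS, hB.symm u v, add_comm (B u (y v))]
  have hz : ∀ v, S v v = 0 → B v v = 0 := by
    intro v hv
    by_contra hne
    apply hex
    refine ⟨v, hne, ?_⟩
    rw [hS, ← two_mul, ← mul_assoc, inv_mul_cancel₀ h2, one_mul] at hv
    exact sub_eq_zero.1 hv
  obtain ⟨m, hm⟩ := qz B S hc hB hsym hn hz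
  have hm0 : m ≠ 0 := by
    intro h0
    have hpos : 0 < finrank F V := by omega
    haveI : Nontrivial V := Module.nontrivial_of_finrank_pos (R := F) hpos
    obtain ⟨v, hv⟩ := exists_ne (0 : V)
    apply hv
    apply hB.nd
    intro w
    rw [hm, h0, zero_mul]
  refine ⟨κ₀ + m⁻¹, ?_⟩
  have h1 : ∀ u v, B u (y v) + B v (y u) = 2 * (κ₀ + m⁻¹) * B u v := by
    intro u v
    have e1 : S u v = m⁻¹ * B u v := by
      rw [hm u v, ← mul_assoc, inv_mul_cancel₀ hm0, one_mul]
    rw [hS] at e1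
    have e2 : (2 : F)⁻¹ * (B u (y v) + B v (y u)) = (κ₀ + m⁻¹) * B u v := by
      rw [add_mul, ← e1]
      ring
    have e3 : B u (y v) + B v (y u) = 2 * ((2 : F)⁻¹ * (B u (y v) + B v (y u))) := by
      rw [← mul_assoc, mul_inv_cancel₀ h2, one_mul]
    rw [e3, e2, mul_assoc]
  intro v
  have h3 : y (y v) - ((2 * (κ₀ + m⁻¹)) • y v - ν • v) = 0 := by
    apply hB.nd
    intro u
    rw [hB.symm]
    have e1 := h1 u (y v)
    have e2 : B (y v) (y u) = ν * B u v := by
      rw [hy.form v u, hB.symm u v]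
      rfl
    rw [e2] at e1
    rw [map_sub, map_sub, map_smul, map_smul, smul_eq_mul, smul_eq_mul, ← e1]
    ring
  exact sub_eq_zero.1 h3

end Pool.Agent.ORT
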